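import Pool.Agent.Helper12.MA.StD
import Pool.Agent.Helper51.AJ.Basic

/-!
# Project MA, module NSV: seven vertices
-/

set_option autoImplicit false

namespace Pool.Agent.Helper37.MA

open Pool.Agent.Helper12.MA
open Pool.Agent.Helper51.AJ (IsMinor Planar Apex ExMinor Con Tch isMinor_of_hom con_nonempty)
open Pool.Agent.Helper12.NK (rst Kc add cnt Pcy IsFace Cof plus)

variable {V : Type}

/-- five pairwise adjacent vertices -/
private theorem k5 {H : SimpleGraph V} (f : Fin 5 → V) (h : ∀ i j, i ≠ j → H.Adj (f i) (f j)) : ¬ Planar H := by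
  intro hp
  refine hp.1 (isMinor_of_hom f ?_ fun a b hab => h a b hab)
  intro i j hij
  by_contra hne
  exact H.ne_of_adj (h i j hne) hij

private theorem nbr {B : SimpleGraph V} {S : Set V} (h : Con B S) {x y : V} (hx : x ∈ S) (hy : y ∈ S) (hne : x ≠ y) :
    ∃ z ∈ S, B.Adj x z := by
  obtain ⟨p⟩ := h.preconnected ⟨x, hx⟩ ⟨y, hy⟩
  generalize hu : (⟨x, hx⟩ : S) = u at p
  generalize hv : (⟨y, hy⟩ : S) = v at p
  cases p with
  | nil =>
    rw [← hu] at hv
    exact absurd (congrArg Subtype.val hv).symm hne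
  | cons h' p' =>
    rename_i w
    refine ⟨w.1, w.2, ?_⟩
    have h2 : B.Adj u.1 w.1 := h'
    rw [← hu] at h2
    exact h2

/-- three vertices induce a connected graph -/
private theorem tri [Finite V] {G : SimpleGraph V} (hV : Nat.card V = 7) (hc : ∀ X : Set V, X.ncard ≤ 4 → Con G Xᶜ)
    {x y z : V} (h1 : x ≠ y) (h2 : x ≠ z) (h3 : y ≠ z) : G.Adj x y ∨ G.Adj x z := by
  have h4 : ({x, y, z} : Set V).ncard = 3 := by
    rw [Set.ncard_eq_three]
    exact ⟨x, y, z, h1, h2, h3, rfl⟩
  have h5 : (({x, y, z} : Set V)ᶜ).ncard ≤ 4 := by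
    rw [Set.ncard_compl, h4, hV]
  have h6 := hc _ h5
  rw [compl_compl] at h6
  obtain ⟨w, hw, ha⟩ := nbr h6 (x := x) (y := y) (by simp) (by simp) h1
  simp only [Set.mem_insert_iff, Set.mem_singleton_iff] at hw
  rcases hw with hw | hw | hw
  · exact absurd hw.symm (G.ne_of_adj ha)
  · exact Or.inl (hw ▸ ha)
  · exact Or.inr (hw ▸ ha)

/-- choice of a pair in a set: a nonadjacent one if possible -/
private theorem pick [Finite V] {G : SimpleGraph V} (hT : ∀ x y z, x ≠ y → x ≠ z → y ≠ z → G.Adj x y ∨ G.Adj x z)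
    {S : Set V} (hS : 1 < S.ncard) : ∃ a ∈ S, ∃ b ∈ S, a ≠ b ∧ (∀ y ∈ S, y ≠ a → y ≠ b → G.Adj a y ∧ G.Adj b y) ∧
      (G.Adj a b → ∀ x ∈ S, ∀ y ∈ S, x ≠ y → G.Adj x y) ∧ (S \ {a, b}).ncard + 2 = S.ncard := by
  have key : ∀ a ∈ S, ∀ b ∈ S, a ≠ b → (S \ {a, b}).ncard + 2 = S.ncard := by
    intro a ha b hb hab
    have h1 : ({a, b} : Set V) ⊆ S := by
      intro t ht
      rcases ht with rfl | ht
      · exact ha
      · rw [Set.mem_singleton_iff.1 ht]
        exact hb
    rw [← Set.ncard_sdiff_add_ncard_of_subset h1, Set.ncard_pair hab]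
  by_cases hA : ∀ x ∈ S, ∀ y ∈ S, x ≠ y → G.Adj x y
  · obtain ⟨a, ha, b, hb, hab⟩ := (Set.one_lt_ncard_iff_nontrivial.1 hS)
    exact ⟨a, ha, b, hb, hab, fun y hy h1 h2 => ⟨hA a ha y hy h1.symm, hA b hb y hy h2.symm⟩, fun _ => hA,
      key a ha b hb hab⟩
  · push Not at hA
    obtain ⟨a, ha, b, hb, hab, hn⟩ := hA
    refine ⟨a, ha, b, hb, hab, fun y hy h1 h2 => ⟨?_, ?_⟩, fun h => absurd h hn, key a ha b hb hab⟩
    · exact (hT a b y hab h1.symm h2.symm).resolve_left hn
    · exact (hT b a y hab.symm h2.symm h1.symm).resolve_left fun h => hn h.symm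

/-- counting: one additional element -/
private theorem more1 {ι : Type} [Fintype ι] [Finite V] {U : Set V} {φ : ι → Set V} (hd : ∀ i j, i ≠ j → Disjoint (φ i) (φ j))
    (hU : ∀ i, φ i ⊆ U) {x : ι → V} (hx : ∀ i, x i ∈ φ i) {i : ι} {y : V} (hy : y ∈ φ i) (hyx : y ≠ x i) :
    y ∉ Set.range x ∧ Fintype.card ι + 1 ≤ U.ncard ∧ (insert y (Set.range x)).ncard = Fintype.card ι + 1 ∧
      insert y (Set.range x) ⊆ U := by
  have hinj : Function.Injective x := by
    intro a b hab
    by_contra hne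
    exact Set.disjoint_left.1 (hd a b hne) (hx a) (hab ▸ hx b)
  have h1 : y ∉ Set.range x := by
    rintro ⟨k, rfl⟩
    have hk : k ≠ i := fun h => hyx (by rw [h])
    exact Set.disjoint_left.1 (hd k i hk) (hx k) hy
  have h2 : (Set.range x).ncard = Fintype.card ι := by
    rw [← Nat.card_eq_fintype_card, ← Nat.card_range_of_injective hinj]
    exact (Nat.card_coe_set_eq _).symm
  have h3 : (insert y (Set.range x)).ncard = Fintype.card ι + 1 := by
    rw [Set.ncard_insert_of_notMem h1, h2]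
  have h4 : insert y (Set.range x) ⊆ U := by
    rintro t (rfl | ⟨k, rfl⟩)
    · exact hU i hy
    · exact hU k (hx k)
  refine ⟨h1, ?_, h3, h4⟩
  rw [← h3]
  exact Set.ncard_le_ncard h4

/-- counting: two additional elements -/
private theorem more2 {ι : Type} [Fintype ι] [Finite V] {U : Set V} {φ : ι → Set V} (hd : ∀ i j, i ≠ j → Disjoint (φ i) (φ j))
    (hU : ∀ i, φ i ⊆ U) {x : ι → V} (hx : ∀ i, x i ∈ φ i) {i j : ι} (hij : i ≠ j) {y y' : V} (hy : y ∈ φ i)
    (hyx : y ≠ x i) (hy' : y' ∈ φ j) (hyx' : y' ≠ x j) : Fintype.card ι + 2 ≤ U.ncard := by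
  obtain ⟨h1, h2, h3, h4⟩ := more1 hd hU hx hy hyx
  obtain ⟨h1', -, -, -⟩ := more1 hd hU hx hy' hyx'
  have h5 : y' ∉ insert y (Set.range x) := by
    rintro (h | h)
    · rw [h] at hy'
      exact Set.disjoint_left.1 (hd i j hij) hy hy'
    · exact h1' h
  have h6 : (insert y' (insert y (Set.range x))).ncard = Fintype.card ι + 2 := by
    rw [Set.ncard_insert_of_notMem h5, h3]
  rw [← h6]
  refine Set.ncard_le_ncard ?_
  rintro t (rfl | h)
  · exact hU j hy'
  · exact h4 h

/-- the octahedron is planar -/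
private theorem oct [Finite V] {H : SimpleGraph V} (c : V) (κ : V → Fin 3) (h1 : ∀ x y, H.Adj x y → x ≠ c ∧ κ x ≠ κ y)
    (h2 : ∀ i, {x | x ≠ c ∧ κ x = i}.ncard ≤ 2) (h3 : (({c} : Set V)ᶜ).ncard ≤ 6) : Planar H := by
  have hsub : ∀ S : Set V, Con H S → (∃ x ∈ S, ∃ y, H.Adj x y) → S ⊆ {c}ᶜ := by
    rintro S hS ⟨x, hx, y, hxy⟩ t ht
    intro htc
    rw [Set.mem_singleton_iff] at htc
    subst htc
    obtain ⟨z, -, hz⟩ := nbr hS ht hx (h1 x y hxy).1.symm
    exact (h1 _ _ hz).1 rfl
  constructor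
  · rintro ⟨φ, hc, hd, ha⟩
    have hU : ∀ i, φ i ⊆ {c}ᶜ := by
      intro i
      refine hsub _ (hc i) ?_
      obtain ⟨j, hj⟩ : ∃ j : Fin 5, i ≠ j := by
        by_cases h : i = 0
        · exact ⟨1, by rw [h]; decide⟩
        · exact ⟨0, h⟩
      obtain ⟨x, hx, y, -, hxy⟩ := ha i j hj
      exact ⟨x, hx, y, hxy⟩
    choose x hx using fun i => con_nonempty (hc i)
    have hi0 : ∃ i0, ∀ i, i ≠ i0 → φ i = {x i} := by
      by_contra hcon
      push Not at hcon
      obtain ⟨i, -, hi⟩ := hcon 0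
      obtain ⟨j, hji, hj⟩ := hcon i
      have hex : ∀ k, φ k ≠ {x k} → ∃ y ∈ φ k, y ≠ x k := by
        intro k hk
        by_contra hno
        push Not at hno
        exact hk (Set.Subset.antisymm (fun t ht => hno t ht) (by
          intro t ht
          rw [Set.mem_singleton_iff.1 ht]
          exact hx k))
      obtain ⟨y, hy, hyx⟩ := hex i hi
      obtain ⟨y', hy', hyx'⟩ := hex j hj
      have := more2 hd hU hx (Ne.symm hji) hy hyx hy' hyx'
      simp only [Fintype.card_fin] at this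
      omega
    obtain ⟨i0, hi0⟩ := hi0
    have hinj : Function.Injective fun t : Fin 4 => κ (x (i0.succAbove t)) := by
      intro s t hst
      by_contra hne
      have hne' : i0.succAbove s ≠ i0.succAbove t := fun h => hne (Fin.succAbove_right_injective h)
      obtain ⟨a, ha1, b, hb1, hab⟩ := ha _ _ (show (⊤ : SimpleGraph (Fin 5)).Adj _ _ from hne')
      rw [hi0 _ (Fin.succAbove_ne i0 s), Set.mem_singleton_iff] at ha1
      rw [hi0 _ (Fin.succAbove_ne i0 t), Set.mem_singleton_iff] at hb1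
      rw [ha1, hb1] at hab
      exact (h1 _ _ hab).2 hst
    have := Fintype.card_le_of_injective _ hinj
    simp at this
  · rintro ⟨φ, hc, hd, ha⟩
    have hU : ∀ i, φ i ⊆ {c}ᶜ := by
      intro i
      refine hsub _ (hc i) ?_
      rcases i with i | i
      · obtain ⟨x, hx, y, -, hxy⟩ := ha (Sum.inl i) (Sum.inr 0) (by simp)
        exact ⟨x, hx, y, hxy⟩
      · obtain ⟨x, hx, y, -, hxy⟩ := ha (Sum.inr i) (Sum.inl 0) (by simp)
        exact ⟨x, hx, y, hxy⟩
    choose x hx using fun i => con_nonempty (hc i)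
    have hs : ∀ i, φ i = {x i} := by
      intro k
      by_contra hk
      have hex : ∃ y ∈ φ k, y ≠ x k := by
        by_contra hno
        push Not at hno
        exact hk (Set.Subset.antisymm (fun t ht => hno t ht) (by
          intro t ht
          rw [Set.mem_singleton_iff.1 ht]
          exact hx k))
      obtain ⟨y, hy, hyx⟩ := hex
      obtain ⟨-, this, -, -⟩ := more1 hd hU hx hy hyx
      simp only [Fintype.card_sum, Fintype.card_fin] at this
      omega
    have hxi : ∀ i j, i ≠ j → x i ≠ x j := by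
      intro i j hij h
      exact Set.disjoint_left.1 (hd i j hij) (hx i) (h ▸ hx j)
    have hlr : ∀ i j : Fin 3, κ (x (Sum.inl i)) ≠ κ (x (Sum.inr j)) := by
      intro i j
      obtain ⟨a, ha1, b, hb1, hab⟩ := ha (Sum.inl i) (Sum.inr j) (by simp)
      rw [hs, Set.mem_singleton_iff] at ha1 hb1
      rw [ha1, hb1] at hab
      exact (h1 _ _ hab).2
    have two : ∀ g : Fin 3 → V, (∀ i j, i ≠ j → g i ≠ g j) → (∀ i, g i ≠ c) → ∃ i j, κ (g i) ≠ κ (g j) := by
      intro g hg hgc
      by_contra hcon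
      push Not at hcon
      have h4 : ({g 0, g 1, g 2} : Set V) ⊆ {t | t ≠ c ∧ κ t = κ (g 0)} := by
        intro t ht
        simp only [Set.mem_insert_iff, Set.mem_singleton_iff] at ht
        rcases ht with rfl | rfl | rfl
        · exact ⟨hgc _, rfl⟩
        · exact ⟨hgc _, hcon _ _⟩
        · exact ⟨hgc _, hcon _ _⟩
      have h5 := Set.ncard_le_ncard h4
      have h6 : ({g 0, g 1, g 2} : Set V).ncard = 3 := by
        rw [Set.ncard_eq_three]
        exact ⟨_, _, _, hg 0 1 (by decide), hg 0 2 (by decide), hg 1 2 (by decide), rfl⟩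
      have h7 := h2 (κ (g 0))
      omega
    obtain ⟨i, i', hii⟩ := two (fun i => x (Sum.inl i)) (fun i j hij => hxi _ _ (fun h => hij (Sum.inl_injective h)))
      (fun i => hU _ (hx _))
    obtain ⟨j, j', hjj⟩ := two (fun i => x (Sum.inr i)) (fun i j hij => hxi _ _ (fun h => hij (Sum.inr_injective h)))
      (fun i => hU _ (hx _))
    have e1 := hlr i j
    have e2 := hlr i j'
    have e3 := hlr i' j
    have e4 := hlr i' j'
    generalize κ (x (Sum.inl i)) = p at *
    generalize κ (x (Sum.inl i')) = p' at *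
    generalize κ (x (Sum.inr j)) = q at *
    generalize κ (x (Sum.inr j')) = q' at *
    omega

theorem hNSV : StNSV := by
  intro V _ G hV hc hN hK
  have hT : ∀ x y z, x ≠ y → x ≠ z → y ≠ z → G.Adj x y ∨ G.Adj x z := fun x y z h1 h2 h3 => tri hV hc h1 h2 h3
  obtain ⟨a0, -, b0, -, n0, p0, q0, c0⟩ := pick hT (S := Set.univ) (by rw [Set.ncard_univ, hV]; norm_num)
  rw [Set.ncard_univ, hV] at c0
  obtain ⟨a1, ha1, b1, hb1, n1, p1, q1, c1⟩ := pick hT (S := Set.univ \ {a0, b0}) (by omega)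
  obtain ⟨a2, ha2, b2, hb2, n2, p2, q2, c2⟩ := pick hT (S := (Set.univ \ {a0, b0}) \ {a1, b1}) (by omega)
  obtain ⟨c, hcc⟩ := Set.ncard_eq_one.1 (show (((Set.univ \ {a0, b0}) \ {a1, b1}) \ {a2, b2}).ncard = 1 by omega)
  have hcm : c ∈ (((Set.univ \ {a0, b0}) \ {a1, b1}) \ {a2, b2} : Set V) := by rw [hcc]; rfl
  have hall : ∀ t, t = a0 ∨ t = b0 ∨ t = a1 ∨ t = b1 ∨ t = a2 ∨ t = b2 ∨ t = c := by
    intro t
    by_contra hcon
    push Not at hcon
    obtain ⟨e1, e2, e3, e4, e5, e6, e7⟩ := hcon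
    have : t ∈ (((Set.univ \ {a0, b0}) \ {a1, b1}) \ {a2, b2} : Set V) := by
      simp [e1, e2, e3, e4, e5, e6]
    rw [hcc] at this
    exact e7 this
  simp only [Set.mem_sdiff, Set.mem_univ, true_and, Set.mem_insert_iff, Set.mem_singleton_iff, not_or] at ha1 hb1 ha2 hb2 hcm p1 q1 p2 q2
  obtain ⟨⟨⟨m1, m2⟩, m3, m4⟩, m5, m6⟩ := hcm
  obtain ⟨⟨l1, l2⟩, l3, l4⟩ := ha2
  obtain ⟨⟨k1, k2⟩, k3, k4⟩ := hb2
  obtain ⟨i1, i2⟩ := ha1
  obtain ⟨j1, j2⟩ := hb1
  have A0 : ∀ y, y ≠ a0 → y ≠ b0 → G.Adj a0 y := fun y h1 h2 => (p0 y (Set.mem_univ _) h1 h2).1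
  have B0 : ∀ y, y ≠ a0 → y ≠ b0 → G.Adj b0 y := fun y h1 h2 => (p0 y (Set.mem_univ _) h1 h2).2
  have r1 := A0 a1 i1 i2
  have r2 := A0 b1 j1 j2
  have r3 := A0 a2 l1 l2
  have r4 := A0 b2 k1 k2
  have r5 := A0 c m1 m2
  have s1 := B0 a1 i1 i2
  have s2 := B0 b1 j1 j2
  have s3 := B0 a2 l1 l2
  have s4 := B0 b2 k1 k2
  have s5 := B0 c m1 m2
  have t1 := p1 a2 ⟨l1, l2⟩ l3 l4
  have t2 := p1 b2 ⟨k1, k2⟩ k3 k4
  have t3 := p1 c ⟨m1, m2⟩ m3 m4
  have t4 := p2 c ⟨⟨m1, m2⟩, m3, m4⟩ m5 m6
  by_cases hab : G.Adj a2 b2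
  · -- at most two nonadjacent pairs
    have hf : ∀ i j : Fin 5, i ≠ j → G.Adj ((![b0, b1, a2, b2, c] : Fin 5 → V) i) ((![b0, b1, a2, b2, c] : Fin 5 → V) j) := by
      have h0 : ∀ i j : Fin 5, i < j → G.Adj ((![b0, b1, a2, b2, c] : Fin 5 → V) i) ((![b0, b1, a2, b2, c] : Fin 5 → V) j) := by
        intro i j hij
        fin_cases i <;> fin_cases j <;> first
          | exact absurd hij (by decide)
          | exact s2
          | exact s3
          | exact s4
          | exact s5
          | exact t1.2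
          | exact t2.2
          | exact t3.2
          | exact hab
          | exact t4.1
          | exact t4.2
      intro i j hij
      rcases lt_or_gt_of_ne hij with h | h
      · exact h0 i j h
      · exact (h0 j i h).symm
    have hne : ∀ i : Fin 5, (![b0, b1, a2, b2, c] : Fin 5 → V) i ≠ a0 ∧ (![b0, b1, a2, b2, c] : Fin 5 → V) i ≠ a1 := by
      intro i
      fin_cases i
      · exact ⟨n0.symm, fun h => i2 h.symm⟩
      · exact ⟨j1, n1.symm⟩
      · exact ⟨l1, l3⟩
      · exact ⟨k1, k3⟩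
      · exact ⟨m1, m3⟩
    have huv : ∀ i : Fin 5, G.Adj a0 ((![b0, b1, a2, b2, c] : Fin 5 → V) i) ∨ G.Adj a1 ((![b0, b1, a2, b2, c] : Fin 5 → V) i) := by
      intro i
      fin_cases i
      · exact Or.inr s1.symm
      · exact Or.inl r2
      · exact Or.inl r3
      · exact Or.inl r4
      · exact Or.inl r5
    have hsur : ∀ y, y ≠ a0 → y ≠ a1 → ∃ k : Fin 5, y = (![b0, b1, a2, b2, c] : Fin 5 → V) k := by
      intro y h1 h2
      rcases hall y with h | h | h | h | h | h | h
      · exact absurd h h1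
      · exact ⟨0, h⟩
      · exact absurd h h2
      · exact ⟨1, h⟩
      · exact ⟨2, h⟩
      · exact ⟨3, h⟩
      · exact ⟨4, h⟩
    generalize (![b0, b1, a2, b2, c] : Fin 5 → V) = f at hf hne huv hsur
    rcases hK a0 a1 r1 with h | ⟨y, hy1, hy2, h⟩
    · refine k5 f (fun i j hij => ?_) h
      refine ⟨hf i j hij, ?_, ?_⟩
      · simp [(hne i).1, (hne i).2]
      · simp [(hne j).1, (hne j).2]
    · obtain ⟨k, rfl⟩ := hsur y hy1 hy2
      refine k5 (fun i => if i = k then a0 else f i) (fun i j hij => ?_) h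
      by_cases hi : i = k
      · subst hi
        have hj : ¬ j = i := fun h => hij h.symm
        simp only [if_true, if_neg hj]
        refine Or.inr (Or.inl ⟨rfl, ⟨huv j, (hne j).1, (hne j).2, ?_⟩, (hne j).1⟩)
        exact (G.ne_of_adj (hf j i hj))
      · by_cases hj : j = k
        · subst hj
          simp only [if_true, if_neg hi]
          refine Or.inr (Or.inr ⟨rfl, ⟨huv i, (hne i).1, (hne i).2, ?_⟩, (hne i).1⟩)
          exact (G.ne_of_adj (hf i j hi))
        · simp only [if_neg hi, if_neg hj]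
          refine Or.inl ⟨hf i j hij, ?_, ?_⟩
          · have := G.ne_of_adj (hf i k hi)
            simp [(hne i).1, (hne i).2, this]
          · have := G.ne_of_adj (hf j k hj)
            simp [(hne j).1, (hne j).2, this]
  · -- three nonadjacent pairs
    have hab1 : ¬ G.Adj a1 b1 := fun h => hab (q1 h a2 ⟨l1, l2⟩ b2 ⟨k1, k2⟩ n2)
    have hab0 : ¬ G.Adj a0 b0 := fun h => hab (q0 h a2 (Set.mem_univ _) b2 (Set.mem_univ _) n2)
    classical
    let κ : V → Fin 3 := fun v => if v = a0 ∨ v = b0 then 0 else if v = a1 ∨ v = b1 then 1 else 2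
    have cl : ∀ t, t ≠ c → (κ t = 0 → t = a0 ∨ t = b0) ∧ (κ t = 1 → t = a1 ∨ t = b1) ∧ (κ t = 2 → t = a2 ∨ t = b2) := by
      intro t ht
      refine ⟨fun h => ?_, fun h => ?_, fun h => ?_⟩
      · by_contra hcon
        simp only [κ, if_neg hcon] at h
        split_ifs at h <;> exact absurd h (by decide)
      · by_contra hcon
        simp only [κ, if_neg hcon] at h
        split_ifs at h <;> exact absurd h (by decide)
      · by_contra hcon
        push Not at hcon
        have h5 : t = a0 ∨ t = b0 ∨ t = a1 ∨ t = b1 := by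
          rcases hall t with h | h | h | h | h | h | h
          · exact Or.inl h
          · exact Or.inr (Or.inl h)
          · exact Or.inr (Or.inr (Or.inl h))
          · exact Or.inr (Or.inr (Or.inr h))
          · exact absurd h hcon.1
          · exact absurd h hcon.2
          · exact absurd h ht
        simp only [κ] at h
        by_cases h6 : t = a0 ∨ t = b0
        · rw [if_pos h6] at h
          exact absurd h (by decide)
        · rw [if_neg h6] at h
          have h7 : t = a1 ∨ t = b1 := by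
            rcases h5 with h | h | h | h
            · exact absurd (Or.inl h) h6
            · exact absurd (Or.inr h) h6
            · exact Or.inl h
            · exact Or.inr h
          rw [if_pos h7] at h
          exact absurd h (by decide)
    have two : ∀ a b : V, ({a, b} : Set V).ncard ≤ 2 := by
      intro a b
      exact (Set.ncard_insert_le _ _).trans (by rw [Set.ncard_singleton])
    refine hN c (oct c κ ?_ ?_ ?_)
    · rintro x y ⟨hxy, hx, hy⟩
      have hx : x ≠ c := hx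
      have hy : y ≠ c := hy
      refine ⟨hx, fun hk => ?_⟩
      have hne := G.ne_of_adj hxy
      have h3 : κ x = 0 ∨ κ x = 1 ∨ κ x = 2 := by
        generalize κ x = p
        omega
      rcases h3 with h | h | h
      · rcases (cl x hx).1 h with rfl | rfl <;> rcases (cl y hy).1 (hk ▸ h) with rfl | rfl
        · exact hne rfl
        · exact hab0 hxy
        · exact hab0 hxy.symm
        · exact hne rfl
      · rcases (cl x hx).2.1 h with rfl | rfl <;> rcases (cl y hy).2.1 (hk ▸ h) with rfl | rfl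
        · exact hne rfl
        · exact hab1 hxy
        · exact hab1 hxy.symm
        · exact hne rfl
      · rcases (cl x hx).2.2 h with rfl | rfl <;> rcases (cl y hy).2.2 (hk ▸ h) with rfl | rfl
        · exact hne rfl
        · exact hab hxy
        · exact hab hxy.symm
        · exact hne rfl
    · intro i
      have h3 : i = 0 ∨ i = 1 ∨ i = 2 := by omega
      rcases h3 with rfl | rfl | rfl
      · exact (Set.ncard_le_ncard (t := {a0, b0}) (fun t ht => (cl t ht.1).1 ht.2)).trans (two _ _)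
      · exact (Set.ncard_le_ncard (t := {a1, b1}) (fun t ht => (cl t ht.1).2.1 ht.2)).trans (two _ _)
      · exact (Set.ncard_le_ncard (t := {a2, b2}) (fun t ht => (cl t ht.1).2.2 ht.2)).trans (two _ _)
    · rw [Set.ncard_compl, Set.ncard_singleton, hV]

end Pool.Agent.Helper37.MA
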