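import Pool.Agent.Helper12.MA.StA

/-!
# Project MA, module LNV: going around a vertex

Every neighbour of `b` lies in exactly two faces with `b`, every face at `b` contains exactly two neighbours of `b`; so the
number of the faces at `b` with exactly one neighbour of `b` in `A` is even.
-/

set_option autoImplicit false

namespace Pool.Agent.Helper37.MA

open Pool.Agent.Helper12.MA
open Pool.Agent.Helper51.AJ (IsMinor Planar Apex ExMinor Con Tch)
open Pool.Agent.Helper12.NK (rst Kc add cnt Pcy IsFace Cof plus)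

theorem hLNV : StFAX → StFNB → StLNV := by
  intro hFAX hFNB V _ M U b f A a₁ a₂ hP hf hbf ha₁ ha₂ hb₁ hb₂ hA₁ hA₂
  by_contra hno
  classical
  haveI := Fintype.ofFinite V
  have hbU : b ∈ U := (hFAX V M U f hf).1 hbf
  let FF : Finset (Set V) := Finset.univ.filter (fun F => IsFace M U F ∧ b ∈ F)
  let NA : Finset V := Finset.univ.filter (fun n => n ∈ U ∧ M.Adj b n ∧ n ∈ A)
  have h1 : ∀ n ∈ NA, (FF.filter (fun F => n ∈ F)).card = 2 := by
    intro n hn
    simp only [NA, Finset.mem_filter, Finset.mem_univ, true_and] at hn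
    obtain ⟨hnU, hbn, hnA⟩ := hn
    obtain ⟨F, F', hF, hF', hne, hbF, hnF, hbF', hnF', huniq⟩ := (hFNB V M U hP).1 b hbU n hnU hbn
    have h : FF.filter (fun F => n ∈ F) = {F, F'} := by
      ext G
      simp only [FF, Finset.mem_filter, Finset.mem_univ, true_and, Finset.mem_insert,
        Finset.mem_singleton]
      constructor
      · rintro ⟨⟨hG, hbG⟩, hnG⟩
        exact huniq G hG hbG hnG
      · rintro (rfl | rfl)
        · exact ⟨⟨hF, hbF⟩, hnF⟩
        · exact ⟨⟨hF', hbF'⟩, hnF'⟩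
    rw [h, Finset.card_pair hne]
  have h2 : ∑ F ∈ FF, (NA.filter (fun n => n ∈ F)).card =
      ∑ n ∈ NA, (FF.filter (fun F => n ∈ F)).card := by
    simp only [Finset.card_filter]
    exact Finset.sum_comm
  have h3 : ∑ n ∈ NA, (FF.filter (fun F => n ∈ F)).card = NA.card * 2 := Finset.sum_const_nat h1
  -- the neighbours of `b` on a face
  have h0 : ∀ F, IsFace M U F → b ∈ F → ∃ a ∈ F, ∃ c ∈ F, a ≠ c ∧ M.Adj b a ∧ M.Adj b c ∧
      ∀ n, n ∈ NA.filter (fun n => n ∈ F) ↔ (n = a ∨ n = c) ∧ n ∈ A := by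
    intro F hF hbF
    obtain ⟨hFU, _, _, hF2, _⟩ := hFAX V M U F hF
    obtain ⟨a, haF, c, hcF, hac, _, _, hadj⟩ := hF2 b hbF
    refine ⟨a, haF, c, hcF, hac, (hadj a haF).2 (Or.inl rfl), (hadj c hcF).2 (Or.inr rfl), ?_⟩
    intro n
    simp only [NA, Finset.mem_filter, Finset.mem_univ, true_and]
    constructor
    · rintro ⟨⟨_, hbn, hnA⟩, hnF⟩
      exact ⟨(hadj n hnF).1 hbn, hnA⟩
    · rintro ⟨hn, hnA⟩
      have hnF : n ∈ F := by
        rcases hn with rfl | rfl
        · exact haF
        · exact hcF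
      exact ⟨⟨hFU hnF, (hadj n hnF).2 hn, hnA⟩, hnF⟩
  have h4 : ∀ F ∈ FF.erase f, 2 ∣ (NA.filter (fun n => n ∈ F)).card := by
    intro F hF
    rw [Finset.mem_erase] at hF
    obtain ⟨hFf, hF⟩ := hF
    simp only [FF, Finset.mem_filter, Finset.mem_univ, true_and] at hF
    obtain ⟨hF, hbF⟩ := hF
    obtain ⟨a, haF, c, hcF, hac, hba, hbc, hN⟩ := h0 F hF hbF
    by_cases haA : a ∈ A
    · by_cases hcA : c ∈ A
      · have h : NA.filter (fun n => n ∈ F) = {a, c} := by
          ext n
          rw [hN n, Finset.mem_insert, Finset.mem_singleton]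
          constructor
          · exact fun h => h.1
          · rintro (rfl | rfl)
            · exact ⟨Or.inl rfl, haA⟩
            · exact ⟨Or.inr rfl, hcA⟩
        rw [h, Finset.card_pair hac]
      · exact absurd ⟨F, hF, hFf, hbF, a, haF, c, hcF, hba, hbc, haA, hcA⟩ hno
    · by_cases hcA : c ∈ A
      · exact absurd ⟨F, hF, hFf, hbF, c, hcF, a, haF, hbc, hba, hcA, haA⟩ hno
      · have h : NA.filter (fun n => n ∈ F) = ∅ := by
          rw [Finset.eq_empty_iff_forall_notMem]
          intro n hn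
          rw [hN n] at hn
          rcases hn with ⟨rfl | rfl, hnA⟩
          · exact haA hnA
          · exact hcA hnA
        rw [h, Finset.card_empty]
        exact dvd_zero 2
  have h5 : (NA.filter (fun n => n ∈ f)).card = 1 := by
    obtain ⟨a, haF, c, hcF, hac, hba, hbc, hN⟩ := h0 f hf hbf
    obtain ⟨_, _, _, hf2, _⟩ := hFAX V M U f hf
    obtain ⟨x, hx, y, hy, hxy, _, _, hadj⟩ := hf2 b hbf
    have hne : a₁ ≠ a₂ := fun h => hA₂ (h ▸ hA₁)
    have k1 := (hadj a₁ ha₁).1 hb₁
    have k2 := (hadj a₂ ha₂).1 hb₂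
    have h : NA.filter (fun n => n ∈ f) = {a₁} := by
      ext n
      rw [Finset.mem_singleton]
      simp only [NA, Finset.mem_filter, Finset.mem_univ, true_and]
      constructor
      · rintro ⟨⟨_, hbn, hnA⟩, hnf⟩
        have k3 := (hadj n hnf).1 hbn
        have k4 : n ≠ a₂ := fun h => hA₂ (h ▸ hnA)
        rcases k1 with k1 | k1 <;> rcases k2 with k2 | k2 <;> rcases k3 with k3 | k3 <;>
          first
          | exact absurd (k1.trans k2.symm) hne
          | exact absurd (k3.trans k2.symm) k4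
          | exact k3.trans k1.symm
      · rintro rfl
        exact ⟨⟨(hFAX V M U f hf).1 ha₁, hb₁, hA₁⟩, ha₁⟩
    rw [h, Finset.card_singleton]
  have h6 : f ∈ FF := by
    simp only [FF, Finset.mem_filter, Finset.mem_univ, true_and]
    exact ⟨hf, hbf⟩
  have h7 := Finset.add_sum_erase FF (fun F => (NA.filter (fun n => n ∈ F)).card) h6
  have h8 : 2 ∣ ∑ F ∈ FF.erase f, (NA.filter (fun n => n ∈ F)).card := Finset.dvd_sum h4
  simp only [h5] at h7
  rw [h2, h3] at h7
  omega

end Pool.Agent.Helper37.MA
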